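import Pool.Agent.Q189.IB.Stm3

set_option autoImplicit false

/-!
Job IB-ENUM: the enumeration of the different pairs of fractional parts exists.
-/

namespace Pool.Agent.Q94.IB

open Pool.Agent.Q189.IB

/-- **ENUM** -/
theorem enum_exists : S_ENUM := by
  classical
  intro k a
  set f : Fin k → ℚ × ℚ := fun j => (Int.fract (a j.castSucc), Int.fract (tail a j)) with hf
  set S : Finset (ℚ × ℚ) :=
    (Finset.univ.filter fun j : Fin k => (f j).1 ≠ 0 ∧ (f j).2 ≠ 0).image f with hS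
  set e := S.equivFin
  refine ⟨S.card, fun c => ((e.symm c : S) : ℚ × ℚ).1, fun c => ((e.symm c : S) : ℚ × ℚ).2,
    fun c => (Finset.univ.filter fun j : Fin k =>
      Int.fract (a j.castSucc) = ((e.symm c : S) : ℚ × ℚ).1 ∧
        Int.fract (tail a j) = ((e.symm c : S) : ℚ × ℚ).2).card, ?_, ?_, ?_, ?_, ?_⟩
  · intro c c' h1 h2
    exact e.symm.injective (Subtype.ext (Prod.ext h1 h2))
  · intro c
    obtain ⟨j, hj, hjc⟩ := Finset.mem_image.1 (e.symm c).2
    have h1 := (Finset.mem_filter.1 hj).2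
    have e1 : (f j).1 = ((e.symm c : S) : ℚ × ℚ).1 := congrArg Prod.fst hjc
    have e2 : (f j).2 = ((e.symm c : S) : ℚ × ℚ).2 := congrArg Prod.snd hjc
    exact ⟨fun h => h1.1 (e1.trans h), fun h => h1.2 (e2.trans h)⟩
  · intro c
    obtain ⟨j, _, hjc⟩ := Finset.mem_image.1 (e.symm c).2
    exact ⟨j, congrArg Prod.fst hjc, congrArg Prod.snd hjc⟩
  · intro j h1 h2
    have hm : f j ∈ S := by
      rw [hS, Finset.mem_image]
      exact ⟨j, Finset.mem_filter.2 ⟨Finset.mem_univ _, h1, h2⟩, rfl⟩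
    refine ⟨e ⟨f j, hm⟩, ?_, ?_⟩
    · show (f j).1 = ((e.symm (e ⟨f j, hm⟩) : S) : ℚ × ℚ).1
      rw [Equiv.symm_apply_apply]
    · show (f j).2 = ((e.symm (e ⟨f j, hm⟩) : S) : ℚ × ℚ).2
      rw [Equiv.symm_apply_apply]
  · intro c
    refine congrArg Finset.card (Finset.filter_congr fun j _ => Iff.rfl)

end Pool.Agent.Q94.IB
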